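import Pool.Agent.W826.PB.Props

/-! PB-1: finite bit expectation versus the product law restricted to a finite set of sites -/

set_option autoImplicit false

namespace Pool.Agent.W403.PB
open MeasureTheory Pool.Agent.W826.PB

/-- extend a configuration on `Λ` by closed sites -/
noncomputable def glue {d : ℕ} (Λ : Finset (Fin d → ℤ)) (η : Λ → St) : (Fin d → ℤ) → St := by
  classical
  exact fun x => if h : x ∈ Λ then η ⟨x, h⟩ else St.clo

lemma step1 (d : ℕ) (Λ : Finset (Fin d → ℤ)) (p q : ℝ) (A : Set ((Fin d → ℤ) → St)) :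
    (law d p q).real {ξ | glue Λ (Λ.restrict ξ) ∈ A} =
      (Measure.pi (fun _ : Λ => siteLaw p q)).real {η | glue Λ η ∈ A} := by
  have h := Measure.infinitePi_map_restrict (fun _ : Fin d → ℤ => siteLaw p q) (I := Λ)
  rw [← h, Measure.real, Measure.real, Measure.map_apply (Finset.measurable_restrict Λ)
    (Set.toFinite _).measurableSet]
  rfl

lemma step2 {ι : Type} [Fintype ι] [DecidableEq ι] (μ : Measure St) [IsProbabilityMeasure μ]
    (B : Set (ι → St)) [DecidablePred (· ∈ B)] :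
    (Measure.pi (fun _ : ι => μ)).real B =
      ∑ η : ι → St, if η ∈ B then ∏ x, μ.real {η x} else 0 := by
  rw [← Finset.sum_filter]
  have : B = ((Finset.univ.filter (· ∈ B) : Finset (ι → St)) : Set _) := by ext; simp
  conv_lhs => rw [this]
  rw [← sum_measureReal_singleton]
  refine Finset.sum_congr rfl ?_
  intro η _
  rw [Measure.real, Measure.pi_singleton, ENNReal.toReal_prod]
  rfl

/-- the weight of one site -/
noncomputable def w1 (p b : ℝ) (h : Bool → Bool) : ℝ :=
  ∏ c : Bool, (if h c then (if c then b else p) else 1 - (if c then b else p))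

lemma site (p b : ℝ) (hp0 : 0 ≤ p) (hp1 : p ≤ 1) (hb0 : 0 ≤ b) (hb1 : b ≤ 1) (v : St) :
    ∑ h ∈ Finset.univ.filter (fun h : Bool → Bool => dec (h false) (h true) = v), w1 p b h =
      (siteLaw p (b * (1 - p))).real {v} := by
  have hc : 0 ≤ p ∧ 0 ≤ b * (1 - p) ∧ p + b * (1 - p) ≤ 1 := by
    refine ⟨hp0, mul_nonneg hb0 (by linarith), ?_⟩
    nlinarith
  have h1 : 0 ≤ 1 - p - b * (1 - p) := by linarith [hc.2.2]
  rw [Finset.sum_filter, ← Equiv.sum_comp (Equiv.boolArrowEquivProd Bool).symm, Fintype.sum_prod_type]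
  simp only [Fintype.sum_bool, Equiv.boolArrowEquivProd, w1, Fintype.prod_bool, Equiv.coe_fn_symm_mk]
  have hs : siteLaw p (b * (1 - p)) = ENNReal.ofReal p • Measure.dirac St.occ
      + ENNReal.ofReal (b * (1 - p)) • Measure.dirac St.clo
      + ENNReal.ofReal (1 - p - b * (1 - p)) • Measure.dirac St.emp := by
    unfold siteLaw
    rw [if_pos hc]
  rw [hs, Measure.real]
  cases v
  · simp [dec, hp0]
    ring
  · simp [dec, hc.2.1]
  · simp [dec, h1]
    ring

lemma fiber {d : ℕ} (Λ : Finset (Fin d → ℤ)) (p b : ℝ) (hp0 : 0 ≤ p) (hp1 : p ≤ 1)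
    (hb0 : 0 ≤ b) (hb1 : b ≤ 1) (η : Λ → St) :
    ∑ ω ∈ Finset.univ.filter (fun ω : Λ × Bool → Bool =>
        (fun x => dec (ω (x, false)) (ω (x, true))) = η), wt (par Λ p b) ω =
      ∏ x, (siteLaw p (b * (1 - p))).real {η x} := by
  have h : ∏ x, (siteLaw p (b * (1 - p))).real {η x} =
      ∏ x : Λ, ∑ h ∈ Finset.univ.filter (fun h : Bool → Bool => dec (h false) (h true) = η x),
        w1 p b h :=
    Finset.prod_congr rfl fun x _ => (site p b hp0 hp1 hb0 hb1 (η x)).symm
  rw [h, Finset.prod_univ_sum]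
  refine Finset.sum_equiv (Equiv.curry Λ Bool Bool) ?_ ?_
  · intro ω
    simp only [Finset.mem_filter, Finset.mem_univ, true_and, Fintype.mem_piFinset,
      funext_iff, Equiv.curry_apply, Function.curry_apply]
  · intro ω _
    rw [wt, Fintype.prod_prod_type]
    rfl

lemma ext_eq_glue {d : ℕ} (Λ : Finset (Fin d → ℤ)) (ω : Λ × Bool → Bool) :
    ext Λ ω = glue Λ (fun x => dec (ω (x, false)) (ω (x, true))) := by
  funext x
  simp only [ext, glue]

lemma glue_restrict {d : ℕ} (Λ : Finset (Fin d → ℤ)) (ξ : (Fin d → ℤ) → St) :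
    glue Λ (Λ.restrict ξ) = fun x => by classical exact (if x ∈ Λ then ξ x else St.clo) := by
  funext x
  by_cases h : x ∈ Λ <;> simp [glue, h]

theorem main : P_bridge := by
  intro d Λ p b hp0 hp1 hb0 hb1 A
  classical
  have e1 : {ξ : (Fin d → ℤ) → St |
      (fun x => by classical exact (if x ∈ Λ then ξ x else St.clo)) ∈ A} =
      {ξ | glue Λ (Λ.restrict ξ) ∈ A} := by
    ext ξ
    rw [Set.mem_ofPred_eq, Set.mem_ofPred_eq, glue_restrict]
  rw [e1, step1, step2, Ex]
  rw [← Finset.sum_fiberwise Finset.univ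
    (fun ω : Λ × Bool → Bool => fun x : Λ => dec (ω (x, false)) (ω (x, true)))]
  refine Finset.sum_congr rfl ?_
  intro η _
  by_cases hη : glue Λ η ∈ A
  · rw [if_pos (show η ∈ {η | glue Λ η ∈ A} from hη), ← fiber Λ p b hp0 hp1 hb0 hb1 η]
    refine Finset.sum_congr rfl ?_
    intro ω hω
    rw [Finset.mem_filter] at hω
    rw [ext_eq_glue, hω.2, if_pos hη, mul_one]
  · rw [if_neg (show η ∉ {η | glue Λ η ∈ A} from hη)]
    refine (Finset.sum_eq_zero ?_).symm
    intro ω hω
    rw [Finset.mem_filter] at hω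
    rw [ext_eq_glue, hω.2, if_neg hη, mul_zero]

end Pool.Agent.W403.PB
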